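import Pool.Agent.H41.CJ.N

/-!
# MP_b4a25c_gt: biLipschitz maps of Carnot groups and cosets of the lower central series

Carnot groups are given in coordinates: a smooth group law on a normed space `E` whose Lie algebra is
stratified by the subspaces `V 1, …, V r`, together with the linear projection `π` of `E` to `V 1`, which
is the abelianization (as in exponential coordinates).

**Theorem.** (1) Every Carnot group `E` of step `r ≥ 2` is a retract, with abelian kernel, of a Carnot
group `N` of the same step `r` and of dimension `dim E + dim V 1 + 1`, which has neither an abelian
factor nor a Heisenberg factor, and has a bijection `F`, biLipschitz for every Carnot distance, that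
does not permute the left cosets of the term `N_i` of the lower central series, for each
`i = 2, …, r`.

(2) For every `r ≥ 2` there is a Carnot group of step `r` and dimension `r + 4` which has neither an
abelian factor nor a Heisenberg factor, and has such a bijection `F`. (So Q1 has a negative answer.)

The group `N` is the group of the first jets of functions on `E`: the triples `(x, α, s)` of a point `x`
of `E`, a linear form `α` on `V 1` and a number `s`, with the product
`(x, α, s) (y, β, t) = (x y, α + β, s + t + α (π y))`. In (2) it is the jet group of the model filiform
group. The map is `F (x, α, s) = (x, α + d_H f (x), s + f (x))`, where `f` is a smooth function on `E`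
with compact support and `d_H f (x)` is its horizontal differential. It maps horizontal curves to
horizontal curves and multiplies their lengths by at most a constant.
-/

set_option autoImplicit false

namespace Pool.Agent.Results.MP_b4a25c_gt.JetGroups

open Pool.Agent.H41.CJ

/-- **Jet groups of Carnot groups.** Part (1) and part (2) of the theorem explained above;
`Violates U ρ r d`: the group, with the layers `U` and the abelianization `ρ`, is a Carnot group of step
`r` and dimension `d` without abelian and Heisenberg factors, and one bijection, biLipschitz for every
Carnot distance, does not permute the left cosets of `N_i` for each `i = 2, …, r`. -/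
theorem result :
    (∀ (E : Type) [NormedAddCommGroup E] [NormedSpace ℝ E] [FiniteDimensional ℝ E] [Group E]
      (V : ℕ → Submodule ℝ E) (π : E →L[ℝ] V 1) (r : ℕ), IsCarnot V π r → 2 ≤ r →
        ∃ (N : Type) (_ : NormedAddCommGroup N) (_ : NormedSpace ℝ N) (_ : Group N)
          (U : ℕ → Submodule ℝ N) (ρ : N →L[ℝ] U 1),
          Violates U ρ r (Module.finrank ℝ E + Module.finrank ℝ (V 1) + 1) ∧
          AbelianRetract N E) ∧
    ∀ r : ℕ, 2 ≤ r → ∃ (N : Type) (_ : NormedAddCommGroup N) (_ : NormedSpace ℝ N) (_ : Group N)
      (U : ℕ → Submodule ℝ N) (ρ : N →L[ℝ] U 1), Violates U ρ r (r + 4) := by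
  refine ⟨fun E _ _ _ _ V π r h hr => ⟨Jet π h.hom, inferInstance, inferInstance, inferInstance,
    _, _, main h hr, jet_retract⟩, fun r hr => ?_⟩
  have h := Fil.isCarnot hr
  have h1 := main h hr
  rw [Fil.finrank, Fil.finrank_layer hr] at h1
  exact ⟨Jet (Fil.proj r) h.hom, inferInstance, inferInstance, inferInstance, _, _, h1⟩

end Pool.Agent.Results.MP_b4a25c_gt.JetGroups
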